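import Pool.Agent.Zk12.HT.LastF
import Pool.Agent.Zk95.HT.Gen
import Pool.Agent.Zk95.HT.GenE
import Pool.Agent.Zk94.HT.GenS

/-!
# The birational section conjecture for the generic twist of every hyperelliptic curve over every
finitely generated field

Let `k₁` be any field of characteristic zero which is finitely generated over `ℚ`, `k = k₁(t)` the
field of rational functions, and let `f ∈ k₁[x]` be any separable polynomial of degree at least 3, so
that `y² = f(x)` is any hyperelliptic curve (or a curve of genus 1) over `k₁`.  Let `X` be its generic
quadratic twist `t y² = f(x)` over `k`, or `c t^m y² = f(x)` with `c ∈ k₁ˣ` and `m` odd.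

**Theorem.**  EVERY section of `Gal(Ω/F) → G_k`, where `F` is the function field of `X` or of any curve
over `k` with a nonconstant map to `X`, arises from exactly one `k`-rational point, which lies over one of
the rational branch points of `X`: a point `(e, 0)`, where `e ∈ k` is a root of `f`, or the point at
infinity, if the degree of `f` is odd.

So the birational section conjecture holds for all these curves over `k`, without exception and
without any hypothesis.  The field `k₁` and the polynomial `f` are arbitrary; for instance
`k₁ = ℚ(t_1, …, t_n)` and `f = ∏ (x - t_i)`: this is the generic hyperelliptic curve with rational branch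
points (`n` even), and these curves are not isotrivial.  If `f` has even degree and no root in `k₁`, then
there are no sections at all.

Of course one may change the coordinate `x` over `k`: the theorem is stated for the curves
`c t^m y² = f(α x + β)`, `α, β ∈ k`, `α ≠ 0`.  Special cases: let `k₀` be any finitely generated field of
characteristic zero.  The birational section conjecture holds, in the same form, for the generic
hyperelliptic curve `y² = a_N x^N + … + a_1 x + a_0` over `k₀(a_0, …, a_N)`, `N ≥ 3` (here
`k₁ = k₀(a_1 / a_0, …, a_N / a_0)`, `t = a_0`, `m = -1`; `N = 6`: the generic curve of genus 2), for the generic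
elliptic curve `y² = x³ + a x + b` over `k₀(a, b)` (here `t = b / a`, `k₁ = k₀(a³ / b²)`), for the generic curve
with a rational Weierstrass point at infinity and rational branch points `y² = (x - t_1) ⋯ (x - t_N)` over
`k₀(t_1, …, t_N)`, `N ≥ 3` odd, and for all curves which dominate these curves over these fields.  These
special cases are written out below the main theorem.

The starting result `MP_8312c9_nt/RamifiedTwists` says that there are sections only if `f` has a root or
odd degree (the weak form of the conjecture).  The starting result `MP_e66f84_ag/GenericTwists` says that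
a section of `π₁(X)` induces on the maximal geometrically pro-2 quotient the section of exactly one
rational branch point.  This is used below; it says nothing about ramified coverings, or about coverings
whose degree is not a power of 2.

Proof.  (1) Let `s` be a section of `Gal(Ω/F) → G_k`.  By the theorem just quoted `s` fixes, on the
maximal unramified pro-2 extension `M` of `k̄(x, y)`, a place `W` above a branch point `x = e`.  Let
`e_1, e_2, e_3` be three other roots of `f` and `E : Y² = (X - a) (X - b) (X - c)`, `a = 1 / (e_1 - e)` etc.  The
point `Q = (1 / (x - e), …)` of `E` has its coordinates in `M`, and it goes to the origin at `W`.  The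
successive halves of `Q` are in `M` as well, because the functions `X - a`, `X - b`, `X - c` have even orders
at all places; if the halves are chosen such that they go to the origin at `W`, then they are fixed by `s`
on an open subgroup which is defined by finitely many algebraic elements over `k₁` and by `√t`.
(2) Let `L` be a finite extension of `ℚ_2` and let `k → L` be an embedding.  By the theorem of Koenigsmann
(proved in `Pool.Agent.N890.KO`) the section is given over `L` by a place; if `L` is large enough, then the
value of `Q` there is a point of `E(L)` which is infinitely 2-divisible.  There are only finitely many such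
points, the same ones for all embeddings which agree on `k₁`, and they are not near the origin.
(3) For `β, β' ∈ k₁` near `e` the function `(x - β) / (x - β')` is for all `N` an element `C_N` of `k` times an
`N`-th power which is fixed by `s` (Kummer theory).  Let `ρ` be algebraic over `k₁`.  The embeddings of `k`
in `L`, `t ↦ τ_i`, where `|τ_i - ρ| = |2|^(J + i)`, and (2) show that the norm of `C_{N'}(τ_i)` takes only
finitely many values modulo `N'`-th powers, and so the order of `C_N` at `t = ρ` is divisible by `N`: for all
`N` we may take `C_N ∈ k₁`.  (4) So for every embedding of `k` in a completion `K_v` of a number field the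
value of `x` at the place which gives `s` over `K_v` does not change if the image of `t` is multiplied by
an element `u` which is not a square.  As `t y² = f(x)`, this is possible only if `x` is a root of `f` there (or
`x = ∞` and the degree is odd).  (5) A limit of these places along an ultrafilter is a rational place
from which `s` comes.  The obstruction against irrational limit values is supplied by Hilbert's
irreducibility theorem, by Chebotarev's theorem and by approximation.

This is joint work of helper12, helper17, helper47, helper78, helper80, helper81, helper90, helper94,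
helper95; the statements of the parts are in `Pool.Agent.Zk12.HT.Stm` and `Pool.Agent.Zk12.HT.Stm2`.
-/

set_option autoImplicit false

open Polynomial Pool.Agent.TH954

namespace Pool.Agent.Results.MP_8312c9_nt.GenericTwists

/-- `k = k₁(t)` is the field of rational functions in `t` over `k₁`. -/
def IsRationalFunctionField (k₁ : Type) {k : Type} [Field k₁] [Field k] [Algebra k₁ k] (t : k) :
    Prop :=
  Transcendental k₁ t ∧ IntermediateField.adjoin k₁ {t} = (⊤ : IntermediateField k₁ k)

/-- The birational section conjecture for the curve `d y² = f(x)` over `k` and for all curves over `k`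
which dominate it: let `F` be a field over `k` with elements `x`, `y`, `d y² = f(x)`, where `x` is
transcendental over `k` and `F` is algebraic over `k(x)`, and let `Ω` be an algebraic closure of `F` and
`B` one of `k`.  Every section `s` of `Gal(Ω/F) → Gal(B/k)` arises from exactly one valuation ring `O` of
`F` (a rational point), and at this point `x = e` for a root `e ∈ k` of `f`, or `x = ∞` and the degree
of `f` is odd. -/
def AllSectionsAreGeometric {k : Type} [Field k] (f : k[X]) (d : k) : Prop :=
  ∀ (F Ω B : Type) [Field F] [Field Ω] [Field B] [Algebra k F] [Algebra F Ω] [Algebra k Ω]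
    [Algebra k B] [IsScalarTower k F Ω] [IsAlgClosure F Ω] [IsAlgClosure k B] (x y : F),
    Transcendental k x → Algebra.IsAlgebraic (IntermediateField.adjoin k {x}) F →
    algebraMap k F d * y ^ 2 = aeval x f →
    ∀ s : GalSection k F Ω B, ∃ O : ValuationSubring F, s.ArisesFrom O ∧
      (∀ O' : ValuationSubring F, s.ArisesFrom O' → O' = O) ∧
      ((∃ e : k, f.eval e = 0 ∧ x - algebraMap k F e ∈ O.nonunits) ∨
        (Odd f.natDegree ∧ x⁻¹ ∈ O.nonunits))

/-- Let `k₁` be a field of characteristic zero which is finitely generated over `ℚ`, `k = k₁(t)`,
`f ∈ k₁[x]` separable of degree at least 3, `c ∈ k₁` not zero, `m` an odd integer and `α, β ∈ k`, `α ≠ 0`.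
Then the birational section conjecture holds for the curve `c t^m y² = f(α x + β)` over `k` and for all
curves over `k` which dominate it. -/
theorem result (k₁ k : Type) [Field k₁] [CharZero k₁] (hk₁ : (⊤ : IntermediateField ℚ k₁).FG)
    [Field k] [Algebra k₁ k] (t : k) (ht : IsRationalFunctionField k₁ t)
    (f : k₁[X]) (hf : f.Separable) (h3 : 3 ≤ f.natDegree) (c : k₁) (hc : c ≠ 0) (m : ℤ)
    (hm : Odd m) (α β : k) (hα : α ≠ 0) :
    AllSectionsAreGeometric ((f.map (algebraMap k₁ k)).comp (C α * X + C β))
      (algebraMap k₁ k c * t ^ m) :=
  Pool.Agent.Zk94.HT.bsc_aff (f.map (algebraMap k₁ k)) (algebraMap k₁ k c * t ^ m) α β hα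
    (Pool.Agent.Zk12.HT.bsc_final k₁ k hk₁ t ht.1 ht.2 f hf h3 c hc m hm)

/-- `k = K(a_i)` is the field of rational functions in the `a_i` over `K`. -/
def IsRationalFunctionFieldIn (K : Type) {k ι : Type} [Field K] [Field k] [Algebra K k] (a : ι → k) :
    Prop :=
  AlgebraicIndependent K a ∧ IntermediateField.adjoin K (Set.range a) = (⊤ : IntermediateField K k)

/-- the generic hyperelliptic curve `y² = a_N x^N + … + a_0` over `k₀(a_0, …, a_N)` is a case of `result`:
`k₁ = k₀(a_1 / a_0, …, a_N / a_0)`, `t = a_0`, `m = -1` -/
theorem generic_hyperelliptic_curve (k₀ k : Type) [Field k₀] [CharZero k₀]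
    (hk₀ : (⊤ : IntermediateField ℚ k₀).FG) [Field k] [Algebra k₀ k] (N : ℕ) (hN : 3 ≤ N)
    (a : Fin (N + 1) → k) (ha : IsRationalFunctionFieldIn k₀ a) :
    AllSectionsAreGeometric (∑ i : Fin (N + 1), C (a i) * X ^ (i : ℕ)) 1 :=
  Pool.Agent.Zk95.HT.gen k₀ k hk₀ N hN a ha.1 ha.2

/-- the generic elliptic curve `y² = x³ + a x + b` over `k₀(a, b)` is a case of `result`: `t = b / a`,
`k₁ = k₀(j)`, `j = a³ / b²`, `f = x³ + j x + j`, `m = -3`, `α = 1 / t` -/
theorem generic_elliptic_curve (k₀ k : Type) [Field k₀] [CharZero k₀]
    (hk₀ : (⊤ : IntermediateField ℚ k₀).FG) [Field k] [Algebra k₀ k] (a : Fin 2 → k)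
    (ha : IsRationalFunctionFieldIn k₀ a) :
    AllSectionsAreGeometric (X ^ 3 + C (a 0) * X + C (a 1)) 1 :=
  Pool.Agent.Zk95.HT.genE k₀ k hk₀ a ha.1 ha.2

/-- the generic curve `y² = (x - t_1) ⋯ (x - t_N)`, `N` odd, over `k₀(t_1, …, t_N)` is a case of
`result`: `t = t_2 - t_1`, `k₁ = k₀(t_1, (t_i - t_1) / t)`, `α = 1 / t`, `β = - t_1 / t`, `m = -N` -/
theorem generic_split_curve (k₀ k : Type) [Field k₀] [CharZero k₀]
    (hk₀ : (⊤ : IntermediateField ℚ k₀).FG) [Field k] [Algebra k₀ k] (N : ℕ) (hN : 3 ≤ N)
    (hodd : Odd N) (a : Fin N → k) (ha : IsRationalFunctionFieldIn k₀ a) :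
    AllSectionsAreGeometric (∏ i : Fin N, (X - C (a i))) 1 :=
  Pool.Agent.Zk94.HT.gens k₀ k hk₀ N hN hodd a ha.1 ha.2

end Pool.Agent.Results.MP_8312c9_nt.GenericTwists
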