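import Pool.Agent.Zk12.HD.LastX

/-!
# The birational section conjecture for the curves `D(t) y² = f(x)`, `D` of odd degree

Let `k₁` be any field of characteristic zero which is finitely generated over `ℚ`, `k = k₁(t)` the
field of rational functions, `f ∈ k₁[x]` any separable polynomial of degree at least 3, so that
`y² = f(x)` is any hyperelliptic curve (or a curve of genus 1) over `k₁`, and let `D ∈ k₁[X]` be a
polynomial of odd degree `≥ 3` which is irreducible over the splitting field of `f`.  By Hilbert's
irreducibility theorem these are, for given `f`, almost all polynomials `D` of given odd degree; if all
roots of `f` are in `k₁`, all irreducible `D` of odd degree are admitted.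

**Theorem.**  EVERY section of `Gal(Ω/F) → G_k`, where `F` is the function field over `k` of the
quadratic twist `D(t) y² = f(x)` or of any curve over `k` with a nonconstant map to it, arises from exactly
one `k`-rational point, which lies over one of the rational branch points: a point `(e, 0)`, where `e ∈ k`
is a root of `f`, or the point at infinity, if the degree of `f` is odd.

So the birational section conjecture holds for all these curves over `k`, without exception and
without any hypothesis.  The curve `D(t) y² = f(x)` has bad reduction at all roots of `D` and at infinity,
and good reduction elsewhere on the line.  The field `k₁` and `f` are arbitrary: `f = ∏ (x - t_i)`,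
`k₁ = ℚ(t_1, …, t_n)`, is allowed, and these curves are not isotrivial.  If `f` has even degree and no root
in `k₁`, then there are no sections at all.

In this folder `GenericTwists` has `D` of degree 1 (`D = c X^m` up to squares), and `IrreducibleTwists` has
all `D` such that `k₁[X]/(D)` contains no quadratic extension of `k₁`, also of even degree, but only
`k₁ = ℚ(t_1, …, t_n)` and rational branch points with a special property (for each `i` four of the
`1 / (e_l - e_i)` are in arithmetic progression).  The starting result `MP_e66f84_ag/GenericTwists` on
unramified pro-2 coverings, on which the proof of `GenericTwists` is based, is not known for `D` of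
degree `> 1`; it is replaced here by the steps (1) and (2), and the special elliptic curve over `ℚ` which
is used in `IrreducibleTwists` is replaced by arbitrary twisted elliptic curves over `k`.

Proof.  (0) The conjecture descends along a normal extension `E` of `k`: over `E` the place `W` of
`Ω` is unique, and so it is fixed by the whole section over `k`.  So we may replace `k₁` by the splitting
field of `f`: let all roots `e_i` of `f` be in `k₁`, and `D` irreducible; the degree of `f` may be even, after
a change of the coordinate.  (1) Let `s` be a section and `L ⊂ Ω` its fixed field.  For a nonconstant `X ∈ L` and `β ∈ k`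
let `c_β ∈ k` be the class of `X - β` modulo squares of `L` (Kummer theory).  As
`(X - β) / (γ - β) + (X - γ) / (β - γ) = 1`, the conic `u² = c_β / (γ - β) v² + c_γ / (β - γ) w²` has points
over `k`.  Suppose that `D(t) ∏ (X - e_i)` is a square in `L`.  The residues of the conics at all
irreducible polynomials show (`polD`; this uses the embeddings of `k₁` in two fields `ℚ_p`) that for some
`i` the elements `(X - e_l) (X - e_l') (e_i - e_l) (e_i - e_l')`, `l, l' ≠ i`, are squares in `L`.
(2) With `X = x` this gives the branch point `e = e_i` and a point `X_0 = 1 / (x - e)` of
`E : d Y² = (X - a) (X - b) (X - c)`, `a = 1 / (e_l - e)` etc., `d = c D(t)`, `c ∈ k₁`, with coordinates in `L`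
which is twice a point over `L`.  With `X` the first coordinate of a half of `X_0` and four points
`a, b, c, ∞`, (1) shows that this half, or its sum with a point of order 2, is again twice a point
over `L`.  So `X_0` is infinitely 2-divisible over `L`: this replaces the unramified pro-2 extension.
(3) Let `L₂` be a finite extension of `ℚ_2` and let `k → L₂` be an embedding.  By the theorem of Koenigsmann
(proved in `Pool.Agent.N890.KO`) the section is given over `L₂` by a place, and the value of `X_0` there
is a point of `E(L₂(√d))` which is infinitely 2-divisible.  There are only finitely many such points,
the same ones for all embeddings which agree on `k₁`, and they are not near the origin.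
(4) For `β, β' ∈ k₁` near `e` the function `(x - β) / (x - β')` is for all `N` an element `C_N` of `k` times an
`N`-th power of an element of `L`.  By (3) the norms of `C_{N'}(τ)` for `τ` near a root or pole `ρ` of `C_N`
take only finitely many values modulo `N'`-th powers, and so the order of `C_N` at `ρ` is divisible by
`N`: for all `N` we may take `C_N ∈ k₁`.  (5) So for every embedding `φ` of `k` in a completion `K_v` of a
number field the value of `x` at the place which gives `s` over `K_v` depends only on the embedding of
`k₁`.  As the degree of `D` is odd, there is an embedding `φ'` which is the same on `k₁` such that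
`φ'(D(t)) = ϖ φ(D(t)) η²` with a uniformizer `ϖ`; so `x` is a root of `f` there.  (6) A limit of these places
along an ultrafilter is a rational place from which `s` comes.  The obstruction against irrational
limit values is supplied by Hilbert's irreducibility theorem, by Chebotarev's theorem and by
approximation.

This is joint work of helper12 (project), helper17, helper26, helper47, helper78, helper95, and of
helper80, helper81, helper90, helper94 for the parts of `GenericTwists` used here.
-/

set_option autoImplicit false

open Polynomial Pool.Agent.TH954

namespace Pool.Agent.Results.MP_8312c9_nt.OddDegreeTwists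

/-- `k = k₁(t)` is the field of rational functions in `t` over `k₁`. -/
def IsRationalFunctionField (k₁ : Type) {k : Type} [Field k₁] [Field k] [Algebra k₁ k] (t : k) :
    Prop :=
  Transcendental k₁ t ∧ IntermediateField.adjoin k₁ {t} = (⊤ : IntermediateField k₁ k)

/-- The birational section conjecture for the curve `d y² = f(x)` over `k` and for all curves over `k`
which dominate it: let `F` be a field over `k` with elements `x`, `y`, `d y² = f(x)`, where `x` is
transcendental over `k` and `F` is algebraic over `k(x)`, and let `Ω` be an algebraic closure of `F` and
`B` one of `k`.  Every section `s` of `Gal(Ω/F) → Gal(B/k)` arises from exactly one valuation ring `O` of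
`F` (a rational point), and at this point `x = e` for a root `e ∈ k` of `f`, or `x = ∞` and the degree
of `f` is odd. -/
def AllSectionsAreGeometric {k : Type} [Field k] (f : k[X]) (d : k) : Prop :=
  ∀ (F Ω B : Type) [Field F] [Field Ω] [Field B] [Algebra k F] [Algebra F Ω] [Algebra k Ω]
    [Algebra k B] [IsScalarTower k F Ω] [IsAlgClosure F Ω] [IsAlgClosure k B] (x y : F),
    Transcendental k x → Algebra.IsAlgebraic (IntermediateField.adjoin k {x}) F →
    algebraMap k F d * y ^ 2 = aeval x f →
    ∀ s : GalSection k F Ω B, ∃ O : ValuationSubring F, s.ArisesFrom O ∧
      (∀ O' : ValuationSubring F, s.ArisesFrom O' → O' = O) ∧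
      ((∃ e : k, f.eval e = 0 ∧ x - algebraMap k F e ∈ O.nonunits) ∨
        (Odd f.natDegree ∧ x⁻¹ ∈ O.nonunits))

/-- Let `k₁` be a field of characteristic zero which is finitely generated over `ℚ`, `k = k₁(t)`,
`f ∈ k₁[x]` separable of degree at least 3 and `D ∈ k₁[X]` of odd degree `≥ 3` and irreducible over the
splitting field of `f`.  Then the birational section conjecture holds for the curve `D(t) y² = f(x)`
over `k` and for all curves over `k` which dominate it. -/
theorem result (k₁ k : Type) [Field k₁] [CharZero k₁] (hk₁ : (⊤ : IntermediateField ℚ k₁).FG)
    [Field k] [Algebra k₁ k] (t : k) (ht : IsRationalFunctionField k₁ t)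
    (f : k₁[X]) (hf : f.Separable) (h3 : 3 ≤ f.natDegree)
    (D : k₁[X]) (hodd : Odd D.natDegree) (hD3 : 3 ≤ D.natDegree)
    (hD : Irreducible (D.map (algebraMap k₁ f.SplittingField))) :
    AllSectionsAreGeometric (f.map (algebraMap k₁ k)) (aeval t D) :=
  Pool.Agent.Zk12.HD.hdx k₁ k hk₁ t ht.1 ht.2 f D hf h3 hodd hD

end Pool.Agent.Results.MP_8312c9_nt.OddDegreeTwists
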