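import Pool.Agent.Zk95.FG.All

/-!
# The birational section conjecture over `ℚ(t_1, …, t_n)` for almost all quadratic twists

Let `N ≥ 6` be even and let `e_1, …, e_N` be different integers.  For squarefree `d` let `C_d` be the
curve `d y² = ∏ (x - e_i)`, of genus `(N - 2) / 2 ≥ 2`, with the rational points `(e_i, 0)`.  Suppose
that for every `i` four of the numbers `1 / (e_l - e_i)`, `l ≠ i`, form an arithmetic progression
(`Progressions`), and the condition `CrossRatio` below.  This is so for `0, 6, 10, 15, 30, -30`
(genus 2) and for `0, 1, …, N - 1` for every even `N ≥ 16` (genus `(N - 2) / 2`).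

**Theorem.** For all squarefree `d`, `|d| ≤ X`, with at most `C X (log X)^(-1/5)` exceptions, the
following holds for ALL fields of rational functions `k = ℚ(t_1, …, t_n)`, `n ≥ 0`: EVERY section of
`Gal(Ω/F) → G_k`, where `F` is the function field of `C_d` over `k` or of any curve over `k` with a
nonconstant map to `C_d`, comes from exactly one `k`-rational point, which lies over one of the points
`(e_i, 0)`.  That is, the birational section conjecture holds for all these curves, over the number field
`ℚ` and over its purely transcendental extensions, without any hypothesis.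

The starting result `BirationalSectionsOfTwists` is about `k = ℚ` and the sections which are geometric
over the completions of `ℚ`, and it assumes that the Tate-Shafarevich group of one elliptic curve of
conductor 24 is killed by a positive integer.  Here no theorem about Tate-Shafarevich groups or
`L`-functions is used, and there is no condition on the sections: the theorem of Koenigsmann on
sections over local fields is proved in `Pool.Agent.N890.KO`.

Proof for `k = ℚ`.  By theorems of the starting library (helper623, helper262), for almost all `d`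
every section has modulo 2 the type of one branch point `P_i = (e_i, 0)`: the functions
`(x - e_l) (x - e_m) (e_i - e_l) (e_i - e_m)`, `l, m ≠ i`, have square roots which are fixed by the
section.  Let `t` be the affine function of `1 / (x - e_i)` which has the values `3, 1, -1, -3` at four
branch points as above, and let `L` be the fixed field of the section in `Ω`; only the rational numbers
are algebraic over `ℚ` in `L`.  Then `t - 1, t + 1, t - 3, t + 3` agree modulo squares of `L`, and we
get a point over `L` of an elliptic curve of conductor 24, which does not depend on `d` or `i`.  By the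
descent over `L` of `MP_c1dca2_ag/TwistsLocalAtTwo` this point is, up to a rational torsion point,
divisible by all powers of 2 modulo constant points.  Reduction at a place of `L` with a finite residue
field of characteristic `p ≥ 5` shows that the quotient `f = (t - 1) / (t + 1)` is a unit there, in
particular at all the local points over `ℚ_p`, `p ≥ 5`.  Over `ℚ_2` one has `t = ∞` by the theorem of
`TwistsLocalAtTwo`, and over `ℚ_3` the value of `f` is finite and not zero.  By Kummer theory `f` is for
all `n` a rational number `c_n` times an `n`-th power in `L`.  So `c_n` is, modulo `n`-th powers, `±1`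
times a power of `3`, and the value `1` of `f` over `ℚ_2` shows that `f` has value `1` at all the local
points: `t = ∞`, `x = e_i` there.  Then a limit of the local places over an ultrafilter (the theory of
helper954) is a rational place from which the section comes.

Proof for `k = ℚ(t_1, …, t_n)`.  For `a ∈ ℚ ^ n` the group `G_ℚ` is embedded in the decomposition
group of the place `t = a` of `k` (Puiseux series), and a section `s` over `k` gives a section `s_a`
over `ℚ` of the function field of `C_d` over `ℚ`.  It comes from a point with `x = e(a)`, one of the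
`e_i`.  By Kummer theory `(x - b) / (x - b')`, `b, b' ∈ ℚ`, is an element `c ∈ k` times an `m`-th power
fixed by `s`, and `c(a)` is `(e(a) - b) / (e(a) - b')` up to `m`-th powers.  For every embedding of `k`
in `ℚ_p` the section is given by a place with values in `ℚ_p` (Koenigsmann).  Approximating the image of
`t` by rational `a` we see that the value of `(x - b) / (x - b')` at this place is for all `m` one of
the numbers `(e_i - b) / (e_i - b')` up to `m`-th powers, so `x` is one of the `e_i` there.  Again a
limit of the places, now over all embeddings of `k` in the fields `ℚ_p`, is a rational place from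
which the section comes; the obstruction against irrational limit values is supplied by Hilbert's
irreducibility theorem (`Pool.Agent.H391R2`).

This is joint work of helper12, helper47, helper90, helper94, helper95 (`k = ℚ`) and helper12,
helper17, helper78, helper81, helper90, helper94, helper95 (`k = ℚ(t_1, …, t_n)`); the statements of
the parts are in `Pool.Agent.Zk12.BS.Stm` and `Pool.Agent.Zk12.FG.Stm`.
-/

set_option autoImplicit false

open IsDedekindDomain NumberField Pool.Agent.W620.SC Pool.Agent.TH954

namespace Pool.Agent.Results.MP_8312c9_nt.SectionsOverFunctionFields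

/-- Let `k = ℚ(t_1, …, t_n)`, the `t_i` algebraically independent over `ℚ`, and let `F` be an extension
of `k` with elements `x`, `y`, `d y² = ∏ (x - e_i)`, where `x` is transcendental over `k` and `F` is
algebraic over `k(x)`, that is, the function field of the curve `d y² = ∏ (x - e_i)` over `k` or of a
curve over `k` which dominates it, and let `Ω` be an algebraic closure of `F`.  EVERY section of
`Gal(Ω/F) → G_k` arises from exactly one rational point, and `x = e_i` there for some `i`. -/
def AllSectionsAreGeometric {K : Type} [Fintype K] (e : K → ℤ) (d : ℤ) : Prop :=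
  ∀ (n : ℕ) (k F Ω B : Type) [Field k] [Field F] [Field Ω] [Field B] [Algebra ℚ k] [Algebra k F]
    [Algebra F Ω] [Algebra k Ω] [Algebra k B] [IsScalarTower k F Ω] [IsAlgClosure F Ω]
    [IsAlgClosure k B] (t : Fin n → k) (x y : F), AlgebraicIndependent ℚ t →
    IntermediateField.adjoin ℚ (Set.range t) = ⊤ →
    Transcendental k x → Algebra.IsAlgebraic (IntermediateField.adjoin k {x}) F →
    (d : F) * y ^ 2 = ∏ i, (x - (e i : F)) →
    ∀ s : GalSection k F Ω B,
      (∃! O : ValuationSubring F, s.ArisesFrom O) ∧
        ∃ i, ∀ O : ValuationSubring F, s.ArisesFrom O → (x - (e i : F))⁻¹ ∉ O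

/-- The condition on the branch points: for `i ≠ k` there are `l, l'` different from `i` and `k`, such
that the integer `(e_i - e_l) (e_i - e_l') (e_k - e_l) (e_k - e_l')` is not a square. -/
def CrossRatio {K : Type} (e : K → ℤ) : Prop :=
  ∀ i k, i ≠ k → ∃ l l', l ≠ i ∧ l ≠ k ∧ l' ≠ i ∧ l' ≠ k ∧
    ¬ IsSquare ((e i - e l) * (e i - e l') * ((e k - e l) * (e k - e l')))

/-- For every `i`, four of the numbers `1 / (e_l - e_i)`, `l ≠ i`, form an arithmetic progression. -/
def Progressions {K : Type} (e : K → ℤ) : Prop :=
  ∀ i, ∃ (l : Fin 4 → K) (z δ : ℚ), δ ≠ 0 ∧ (∀ j, l j ≠ i) ∧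
    ∀ j : Fin 4, ((e (l j) : ℚ) - e i)⁻¹ = z + (j : ℕ) * δ

/-- the six branch points of the example of genus 2 -/
def ex : Fin 6 → ℤ := ![0, 6, 10, 15, 30, -30]

/-- the branch points `0, 1, …, N - 1` -/
def consec (N : ℕ) : Fin N → ℤ := fun i => (i : ℤ)

lemma progressions_consec {N : ℕ} (hN : 16 ≤ N) : Progressions (consec N) := by
  intro i
  obtain ⟨i, hi⟩ := i
  have key : ∀ (a b c d : ℕ) (ha : a < N) (hb : b < N) (hc : c < N) (hd : d < N) (z δ : ℚ), δ ≠ 0 →
      a ≠ i → b ≠ i → c ≠ i → d ≠ i → ((a : ℚ) - i)⁻¹ = z → ((b : ℚ) - i)⁻¹ = z + δ →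
      ((c : ℚ) - i)⁻¹ = z + 2 * δ → ((d : ℚ) - i)⁻¹ = z + 3 * δ →
      ∃ (l : Fin 4 → Fin N) (z δ : ℚ), δ ≠ 0 ∧ (∀ j, l j ≠ ⟨i, hi⟩) ∧
        ∀ j : Fin 4, ((consec N (l j) : ℚ) - consec N ⟨i, hi⟩)⁻¹ = z + (j : ℕ) * δ := by
    intro a b c d ha hb hc hd z δ hδ h1 h2 h3 h4 g1 g2 g3 g4
    refine ⟨![⟨a, ha⟩, ⟨b, hb⟩, ⟨c, hc⟩, ⟨d, hd⟩], z, δ, hδ, fun j => ?_, fun j => ?_⟩
    · fin_cases j <;> simp [Fin.ext_iff, h1, h2, h3, h4]
    · fin_cases j
      · simpa [consec] using g1
      · simpa [consec] using g2
      · simpa [consec] using g3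
      · simpa [consec] using g4
  rcases lt_or_ge i 3 with h3 | h3
  · refine key (i + 12) (i + 6) (i + 4) (i + 3) (by omega) (by omega) (by omega) (by omega)
      (1 / 12) (1 / 12) (by norm_num) (by omega) (by omega) (by omega) (by omega) ?_ ?_ ?_ ?_ <;>
    push_cast <;> rw [add_sub_cancel_left] <;> norm_num
  rcases lt_or_ge i (N - 3) with h4 | h4
  · obtain ⟨m, rfl⟩ := Nat.exists_eq_add_of_le h3
    refine key (3 + m - 1) (3 + m - 3) (3 + m + 3) (3 + m + 1) (by omega) (by omega) (by omega)
      (by omega) (-1) (2 / 3) (by norm_num) (by omega) (by omega) (by omega) (by omega) ?_ ?_ ?_ ?_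
    · rw [show 3 + m - 1 = m + 2 by omega]; push_cast
      rw [show ((m : ℚ) + 2 - (3 + m)) = -1 by ring]; norm_num
    · rw [show 3 + m - 3 = m by omega]; push_cast
      rw [show ((m : ℚ) - (3 + m)) = -3 by ring]; norm_num
    · push_cast; rw [add_sub_cancel_left]; norm_num
    · push_cast; rw [add_sub_cancel_left]; norm_num
  · obtain ⟨m, rfl⟩ := Nat.exists_eq_add_of_le (show 12 ≤ i by omega)
    refine key (12 + m - 12) (12 + m - 6) (12 + m - 4) (12 + m - 3) (by omega) (by omega)
      (by omega) (by omega) (-1 / 12) (-1 / 12) (by norm_num) (by omega) (by omega) (by omega)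
      (by omega) ?_ ?_ ?_ ?_
    · rw [show 12 + m - 12 = m by omega]; push_cast
      rw [show ((m : ℚ) - (12 + m)) = -12 by ring]; norm_num
    · rw [show 12 + m - 6 = m + 6 by omega]; push_cast
      rw [show ((m : ℚ) + 6 - (12 + m)) = -6 by ring]; norm_num
    · rw [show 12 + m - 4 = m + 8 by omega]; push_cast
      rw [show ((m : ℚ) + 8 - (12 + m)) = -4 by ring]; norm_num
    · rw [show 12 + m - 3 = m + 9 by omega]; push_cast
      rw [show ((m : ℚ) + 9 - (12 + m)) = -3 by ring]; norm_num

lemma not_square_neg {z : ℤ} (h : z < 0) : ¬ IsSquare z := by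
  rintro ⟨r, rfl⟩
  nlinarith [mul_self_nonneg r]

lemma not_square_twelve : ¬ IsSquare (12 : ℤ) := by
  rintro ⟨r, h⟩
  have h1 : r < 4 := by nlinarith
  have h2 : -4 < r := by nlinarith
  interval_cases r <;> omega

lemma crossRatio_consec {N : ℕ} (hev : Even N) (hN : 16 ≤ N) : CrossRatio (consec N) := by
  -- the case `i < k`
  have main : ∀ i k : ℕ, i < k → k < N → ∃ l l' : ℕ, l < N ∧ l' < N ∧ l ≠ i ∧ l ≠ k ∧ l' ≠ i ∧
      l' ≠ k ∧ ¬ IsSquare (((i : ℤ) - l) * ((i : ℤ) - l') * (((k : ℤ) - l) * ((k : ℤ) - l'))) := by
    intro i k hik hk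
    rcases Nat.lt_or_ge (i + 1) k with h2 | h2
    · rcases Nat.eq_zero_or_pos i with h0 | h0
      · rcases Nat.lt_or_ge (k + 1) N with h3 | h3
        · refine ⟨i + 1, N - 1, by omega, by omega, by omega, by omega, by omega, by omega,
            not_square_neg ?_⟩
          have a1 : ((i : ℤ) - (i + 1 : ℕ)) < 0 := by omega
          have a2 : ((i : ℤ) - (N - 1 : ℕ)) < 0 := by omega
          have a3 : 0 < ((k : ℤ) - (i + 1 : ℕ)) := by omega
          have a4 : ((k : ℤ) - (N - 1 : ℕ)) < 0 := by omega
          exact mul_neg_of_pos_of_neg (mul_pos_of_neg_of_neg a1 a2) (mul_neg_of_pos_of_neg a3 a4)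
        · -- `i = 0`, `k = N - 1`
          obtain ⟨n, hn⟩ : ∃ n, N = 2 * n + 2 := ⟨N / 2 - 1, by
            obtain ⟨r, hr⟩ := hev
            omega⟩
          obtain ⟨p, hp, hp1, hp2⟩ := Nat.exists_prime_lt_and_le_two_mul n (by omega)
          have hkn : k = 2 * n + 1 := by omega
          obtain ⟨l', hl1, hl2, hl3⟩ : ∃ l' : ℕ, 1 ≤ l' ∧ l' ≤ 2 ∧ k - l' ≠ p := by
            by_cases h : k - 1 = p
            · exact ⟨2, by omega, le_rfl, by omega⟩
            · exact ⟨1, le_rfl, by omega, h⟩
          refine ⟨p, l', by omega, by omega, by omega, by omega, by omega, by omega, ?_⟩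
          rintro ⟨r, hr⟩
          have hpp : Prime (p : ℤ) := Nat.prime_iff_prime_int.1 hp
          have e1 : ((i : ℤ) - p) * ((i : ℤ) - l') * (((k : ℤ) - p) * ((k : ℤ) - l')) =
              p * (((k : ℤ) - p) * (l' * ((k : ℤ) - l'))) := by
            rw [h0]; push_cast; ring
          rw [e1] at hr
          have h4 : (p : ℤ) ∣ r := by
            rcases hpp.dvd_or_dvd (hr ▸ dvd_mul_right _ _ : (p : ℤ) ∣ r * r) with h | h <;> exact h
          obtain ⟨u, rfl⟩ := h4
          have h5 : ((k : ℤ) - p) * (l' * ((k : ℤ) - l')) = p * (u * u) := by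
            have hp0 : (p : ℤ) ≠ 0 := by
              have := hp.pos
              omega
            apply mul_left_cancel₀ hp0
            rw [hr]; ring
          have h6 : (p : ℤ) ∣ ((k : ℤ) - p) * (l' * ((k : ℤ) - l')) := ⟨_, h5⟩
          rcases hpp.dvd_or_dvd h6 with h | h
          · have := Int.le_of_dvd (by omega) h
            omega
          · rcases hpp.dvd_or_dvd h with h | h
            · have := Int.le_of_dvd (by omega) h
              omega
            · obtain ⟨w, hw⟩ := h
              have hw1 : w < 2 := by
                by_contra hw2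
                have : (p : ℤ) * 2 ≤ p * w := by
                  apply mul_le_mul_of_nonneg_left (by omega) (by omega)
                omega
              have hw3 : 0 < w := by
                by_contra hw2
                have : (p : ℤ) * w ≤ 0 := mul_nonpos_of_nonneg_of_nonpos (by omega) (by omega)
                omega
              have hw4 : w = 1 := by omega
              rw [hw4, mul_one] at hw
              omega
      · refine ⟨i + 1, 0, by omega, by omega, by omega, by omega, by omega, by omega,
          not_square_neg ?_⟩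
        have a1 : ((i : ℤ) - (i + 1 : ℕ)) < 0 := by omega
        have a2 : 0 < ((i : ℤ) - (0 : ℕ)) := by omega
        have a3 : 0 < ((k : ℤ) - (i + 1 : ℕ)) := by omega
        have a4 : 0 < ((k : ℤ) - (0 : ℕ)) := by omega
        exact mul_neg_of_neg_of_pos (mul_neg_of_neg_of_pos a1 a2) (mul_pos a3 a4)
    · have hk1 : k = i + 1 := by omega
      subst hk1
      rcases Nat.lt_or_ge (i + 3) N with h3 | h3
      · refine ⟨i + 2, i + 3, by omega, by omega, by omega, by omega, by omega, by omega, ?_⟩
        have e1 : ((i : ℤ) - (i + 2 : ℕ)) * ((i : ℤ) - (i + 3 : ℕ)) *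
            ((((i + 1 : ℕ) : ℤ) - (i + 2 : ℕ)) * (((i + 1 : ℕ) : ℤ) - (i + 3 : ℕ))) = 12 := by
          push_cast; ring
        rw [e1]
        exact not_square_twelve
      · obtain ⟨m, rfl⟩ := Nat.exists_eq_add_of_le (show 2 ≤ i by omega)
        refine ⟨m + 1, m, by omega, by omega, by omega, by omega, by omega, by omega, ?_⟩
        have e1 : (((2 + m : ℕ) : ℤ) - (m + 1 : ℕ)) * (((2 + m : ℕ) : ℤ) - (m : ℕ)) *
            ((((2 + m + 1 : ℕ) : ℤ) - (m + 1 : ℕ)) * (((2 + m + 1 : ℕ) : ℤ) - (m : ℕ))) = 12 := by
          push_cast; ring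
        rw [e1]
        exact not_square_twelve
  rintro ⟨i, hi⟩ ⟨k, hk⟩ hik
  have hik' : i ≠ k := fun h => hik (by simp [h])
  rcases Nat.lt_or_gt_of_ne hik' with h | h
  · obtain ⟨l, l', h1, h2, h3, h4, h5, h6, h7⟩ := main i k h hk
    exact ⟨⟨l, h1⟩, ⟨l', h2⟩, by simpa [Fin.ext_iff] using h3, by simpa [Fin.ext_iff] using h4,
      by simpa [Fin.ext_iff] using h5, by simpa [Fin.ext_iff] using h6, h7⟩
  · obtain ⟨l, l', h1, h2, h3, h4, h5, h6, h7⟩ := main k i h hi
    refine ⟨⟨l, h1⟩, ⟨l', h2⟩, by simpa [Fin.ext_iff] using h4, by simpa [Fin.ext_iff] using h3,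
      by simpa [Fin.ext_iff] using h6, by simpa [Fin.ext_iff] using h5, fun h8 => h7 ?_⟩
    rw [mul_comm] at h8
    exact h8

theorem result :
    (∀ (K : Type) [Fintype K] (e : K → ℤ), Function.Injective e → Even (Fintype.card K) →
      6 ≤ Fintype.card K → CrossRatio e → Progressions e → ∃ C : ℝ, ∀ X : ℕ, 2 ≤ X →
        ({d : ℤ | d.natAbs ≤ X ∧ Squarefree d ∧ ¬ AllSectionsAreGeometric e d}.ncard : ℝ) ≤
          C * X * (Real.log X) ^ (-(1 / 5) : ℝ)) ∧
    (Function.Injective ex ∧ CrossRatio ex ∧ Progressions ex) ∧
    (∀ N : ℕ, Even N → 16 ≤ N →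
      Function.Injective (consec N) ∧ CrossRatio (consec N) ∧ Progressions (consec N)) := by
  refine ⟨fun K _ e he hev hK hCR hPr => Pool.Agent.Zk95.FG.final K e he hev hK hCR hPr,
    ⟨by decide, Pool.Agent.Zk95.TD.crossRatio_ex, Pool.Agent.Zk95.TD.progressions_ex⟩,
    fun N hev hN => ⟨fun a b h => ?_, crossRatio_consec hev hN, progressions_consec hN⟩⟩
  have h' : ((a : ℕ) : ℤ) = ((b : ℕ) : ℤ) := h
  exact Fin.ext (by exact_mod_cast h')

end Pool.Agent.Results.MP_8312c9_nt.SectionsOverFunctionFields
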